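import Pool.Agent.E8helper58.CM.Stm

/-!
# A homology sphere minus a vertex is acyclic

Part PUNCT of the project CM (MP_394d50_gt).
-/

set_option autoImplicit false
set_option linter.unusedSectionVars false

namespace Pool.Agent.E8helper67.CM

open Pool.Agent.W907.SG Pool.Agent.W907.SM Module
open Pool.Agent.TH652.Dual
open Pool.Agent.E8helper58.CM

section Abs

variable {V : Type} [Fintype V] [LinearOrder V] {G : SimpleGraph V}

lemma lk_empty (G : SimpleGraph V) : lk G (∅ : Finset V) = Set.univ := by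
  ext x
  simp [lk]

lemma KK_mono {A B : Set V} (h : A ⊆ B) (i : ℕ) : KK G (triv V) A ∅ i ≤ KK G (triv V) B ∅ i := by
  intro c hc
  rw [mem_KK_triv] at hc ⊢
  exact fun T hT => hc T fun h1 => hT ⟨h1.1, h1.2.1.trans h, h1.2.2⟩

lemma Lv_memK {d : ℕ} {c : Finset V → ℝ} (v : V) (hc : c ∈ KK G (triv V) Set.univ ∅ (d + 1)) :
    Lv v c ∈ KK G (triv V) (lk G {v}) ∅ d := by
  rw [mem_KK_triv] at hc ⊢
  intro R hR
  by_cases hv : v ∈ R
  · exact if_pos hv
  · have e : Lv v c R = (sg v R : ℝ) * c (insert v R) := if_neg hv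
    rw [e, hc (insert v R), mul_zero]
    rintro ⟨h3, -, h5⟩
    refine hR ⟨h3.subset (by simp), ?_, ?_⟩
    · intro r hr u hu
      rw [Finset.mem_singleton] at hu
      subst hu
      exact h3 (by simp [Finset.mem_coe.1 hr]) (by simp) (fun e => hv (e ▸ hr))
    · rw [Finset.card_insert_of_notMem hv] at h5
      omega

lemma Lv_add (v : V) (c d : Finset V → ℝ) : Lv v (c + d) = Lv v c + Lv v d := by
  funext R
  rw [Pi.add_apply]
  unfold Lv
  split_ifs
  · rw [add_zero]
  · rw [Pi.add_apply, mul_add]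

lemma Lv_smul (v : V) (r : ℝ) (c : Finset V → ℝ) : Lv v (r • c) = r • Lv v c := by
  funext R
  rw [Pi.smul_apply]
  unfold Lv
  split_ifs
  · rw [smul_zero]
  · rw [Pi.smul_apply, smul_eq_mul, smul_eq_mul]; ring

lemma sg_ne (v : V) (R : Finset V) : (sg v R : ℝ) ≠ 0 := by
  rcases sg_eq_or v R with h | h <;> rw [h] <;> norm_num

lemma off {d : ℕ} {y : Finset V → ℝ} {v : V} (hy : y ∈ KK G (triv V) Set.univ ∅ d)
    (h0 : Lv v y = 0) : y ∈ KK G (triv V) {v}ᶜ ∅ d := by
  rw [mem_KK_triv] at hy ⊢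
  intro T hT
  by_cases hv : v ∈ T
  · have h1 := congrFun h0 (T.erase v)
    have e : Lv v y (T.erase v) = (sg v (T.erase v) : ℝ) * y (insert v (T.erase v)) :=
      if_neg (Finset.notMem_erase v T)
    rw [e, Finset.insert_erase hv, Pi.zero_apply] at h1
    rcases mul_eq_zero.1 h1 with h2 | h2
    · exact absurd h2 (sg_ne v _)
    · exact h2
  · apply hy
    rintro ⟨h1, -, h3⟩
    refine hT ⟨h1, ?_, h3⟩
    intro x hx hxv
    rw [Set.mem_singleton_iff] at hxv
    subst hxv
    exact hv hx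

lemma Lv_off {d : ℕ} {y : Finset V → ℝ} {v : V} (hy : y ∈ KK G (triv V) {v}ᶜ ∅ d) :
    Lv v y = 0 := by
  rw [mem_KK_triv] at hy
  funext R
  unfold Lv
  split_ifs
  · rfl
  · rw [hy (insert v R), mul_zero]
    · rfl
    rintro ⟨-, h2, -⟩
    exact h2 (by simp : v ∈ ((insert v R : Finset V) : Set V)) rfl

/-- the cone over a chain of the link -/
def cone (v : V) (w : Finset V → ℝ) : Finset V → ℝ := fun U =>
  if v ∈ U then (sg v (U.erase v) : ℝ) * w (U.erase v) else 0

lemma cone_mem {d : ℕ} {w : Finset V → ℝ} {v : V} (hw : w ∈ KK G (triv V) (lk G {v}) ∅ d) :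
    cone v w ∈ KK G (triv V) Set.univ ∅ (d + 1) := by
  rw [mem_KK_triv] at hw ⊢
  intro T hT
  unfold cone
  split_ifs with hv
  · rw [hw (T.erase v), mul_zero]
    rintro ⟨h1, h2, h3⟩
    refine hT ⟨?_, Set.subset_univ _, ?_⟩
    · intro x hx y hy hxy
      by_cases e1 : x = v
      · subst e1
        have := h2 (Finset.mem_coe.2 (Finset.mem_erase.2 ⟨hxy.symm, hy⟩)) x (Finset.mem_singleton_self x)
        exact this.symm
      · by_cases e2 : y = v
        · subst e2
          exact h2 (Finset.mem_coe.2 (Finset.mem_erase.2 ⟨hxy, hx⟩)) y (Finset.mem_singleton_self y)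
        · exact h1 (Finset.mem_coe.2 (Finset.mem_erase.2 ⟨e1, hx⟩))
            (Finset.mem_coe.2 (Finset.mem_erase.2 ⟨e2, hy⟩)) hxy
    · rw [Finset.card_erase_of_mem hv] at h3
      have := Finset.card_pos.2 ⟨v, hv⟩
      omega
  · rfl

lemma Lv_cone {d : ℕ} {w : Finset V → ℝ} {v : V} (hw : w ∈ KK G (triv V) (lk G {v}) ∅ d) :
    Lv v (cone v w) = w := by
  rw [mem_KK_triv] at hw
  funext R
  unfold Lv
  split_ifs with hv
  · symm
    apply hw
    rintro ⟨-, h2, -⟩
    exact G.irrefl (h2 (Finset.mem_coe.2 hv) v (Finset.mem_singleton_self v))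
  · have e : cone v w (insert v R) = (sg v ((insert v R).erase v) : ℝ) * w ((insert v R).erase v) :=
      if_pos (Finset.mem_insert_self v R)
    rw [e, Finset.erase_insert hv, ← mul_assoc]
    have h1 : (sg v R : ℝ) * (sg v R : ℝ) = 1 := by
      have := sg_mul_self v R
      exact_mod_cast this
    rw [h1, one_mul]

/-- the case of the whole vertex set -/
theorem punct {n : ℕ} (hS : Sph n G) (v : V) (i : ℕ) : beta G (triv V) {v}ᶜ ∅ i = 0 := by
  have hle : ZZ G (triv V) {v}ᶜ ∅ i ≤ BB G (triv V) {v}ᶜ ∅ i := by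
    intro c hc
    have hcK : c ∈ KK G (triv V) {v}ᶜ ∅ i := hc.1
    have hcb : bd ℝ c = 0 := hc.2
    have hLc : Lv v c = 0 := Lv_off hcK
    have hcU : c ∈ ZZ G (triv V) (lk G ∅) ∅ i := by
      rw [lk_empty]
      exact ⟨KK_mono (Set.subset_univ _) i hcK, hcb⟩
    have hemp : G.IsClique ((∅ : Finset V) : Set V) := by simp
    have hsing : G.IsClique (({v} : Finset V) : Set V) := by simp
    have hvl : v ∈ lk G ∅ := by rw [lk_empty]; trivial
    rcases lt_trichotomy i n with hi | hi | hi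
    · -- below the top
      have hb := hS ∅ hemp i
      rw [if_neg (by simp; omega)] at hb
      rw [← exact_of_beta hb] at hcU
      obtain ⟨y, hy, hyc⟩ := hcU
      rw [lk_empty] at hy
      have hLy : Lv v y ∈ ZZ G (triv V) (lk G {v}) ∅ i := by
        refine ⟨Lv_memK v hy, ?_⟩
        show bd ℝ (Lv v y) = 0
        rw [bd_Lv, hyc, hLc, neg_zero]
      suffices h : ∃ y', y' ∈ KK G (triv V) Set.univ ∅ (i + 1) ∧ bd ℝ y' = c ∧ Lv v y' = 0 by
        obtain ⟨y', h1, h2, h3⟩ := h
        exact ⟨y', off h1 h3, h2⟩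
      by_cases hin : i + 1 = n
      · -- the fundamental class
        have hdim := top_dim hS hemp (d := n) (by simp)
        obtain ⟨⟨z, hz⟩, hz0⟩ : ∃ z : ZZ G (triv V) (lk G ∅) ∅ n, z ≠ 0 := by
          have : Nontrivial ↥(ZZ G (triv V) (lk G ∅) ∅ n) := by
            apply Module.nontrivial_of_finrank_pos (R := ℝ)
            rw [hdim]; norm_num
          exact exists_ne 0
        have hz0' : z ≠ 0 := fun h => hz0 (Subtype.ext h)
        have hL0 := Lv_ne hS n ∅ hemp (by simp) z hz hz0' v hvl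
        subst hin
        have hLz : Lv v z ∈ ZZ G (triv V) (lk G {v}) ∅ i := by
          have := Lv_mem v hz
          exact this
        obtain ⟨r, hr⟩ := top_span hS hsing (d := i) (by simp) hLz hL0 hLy
        refine ⟨y + (-r) • z, ?_, ?_, ?_⟩
        · refine Submodule.add_mem _ hy (Submodule.smul_mem _ _ ?_)
          have := hz.1
          rw [lk_empty] at this
          exact this
        · have hzb : bd ℝ z = 0 := hz.2
          rw [map_add, map_smul, hzb, smul_zero, add_zero, hyc]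
        · rw [Lv_add, Lv_smul, hr]
          simp
      · have hb' := hS {v} hsing i
        rw [if_neg (by simpa using hin)] at hb'
        rw [← exact_of_beta hb'] at hLy
        obtain ⟨w, hw, hwy⟩ := hLy
        refine ⟨y + bd ℝ (cone v w), ?_, ?_, ?_⟩
        · exact Submodule.add_mem _ hy (bd_mem_KK (cone_mem hw))
        · rw [map_add, bd_bd, add_zero, hyc]
        · have h4 : Lv v (bd ℝ (cone v w)) = - bd ℝ w := by
            have h5 := bd_Lv v (cone v w)
            rw [Lv_cone hw] at h5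
            rw [h5, neg_neg]
          rw [Lv_add, h4, hwy, add_neg_cancel]
    · -- the top degree
      subst hi
      have hdim := top_dim hS hemp (d := i) (by simp)
      obtain ⟨⟨z, hz⟩, hz0⟩ : ∃ z : ZZ G (triv V) (lk G ∅) ∅ i, z ≠ 0 := by
        have : Nontrivial ↥(ZZ G (triv V) (lk G ∅) ∅ i) := by
          apply Module.nontrivial_of_finrank_pos (R := ℝ)
          rw [hdim]; norm_num
        exact exists_ne 0
      have hz0' : z ≠ 0 := fun h => hz0 (Subtype.ext h)
      have hL0 := Lv_ne hS i ∅ hemp (by simp) z hz hz0' v hvl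
      obtain ⟨r, hr⟩ := top_span hS hemp (d := i) (by simp) hz hz0' hcU
      rw [hr, Lv_smul] at hLc
      rcases smul_eq_zero.1 hLc with h1 | h1
      · rw [hr, h1, zero_smul]
        exact Submodule.zero_mem _
      · exact absurd h1 hL0
    · -- above the top
      have h0 : c ∈ KK G (triv V) (lk G ∅) ∅ i := hcU.1
      rw [top_KK hS hemp (by simpa using hi), Submodule.mem_bot] at h0
      rw [h0]
      exact Submodule.zero_mem _
  have heq : BB G (triv V) {v}ᶜ ∅ i = ZZ G (triv V) {v}ᶜ ∅ i := le_antisymm (BB_le_ZZ _ _ _ _ _) hle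
  unfold beta
  rw [heq, Nat.sub_self]

end Abs

section Transfer

variable {V : Type} [Fintype V] [LinearOrder V]

/-- Betti numbers in the induced graph -/
theorem beta_induce (G : SimpleGraph V) (A X : Set V) (hX : X ⊆ A) [Fintype ↥A] (i : ℕ) :
    beta G (triv V) X ∅ i = beta (G.induce A) (triv ↥A) (Subtype.val ⁻¹' X) ∅ i := by
  classical
  have hfin : Fintype ↥(Subtype.val ⁻¹' X : Set ↥A) := Fintype.ofFinite _
  have e1 := tr ↥(Subtype.val ⁻¹' X : Set ↥A) ↥A ℝ ℝ (G.induce A)
    ((G.induce A).induce (Subtype.val ⁻¹' X : Set ↥A)) (fun _ => - LinearMap.id) Subtype.val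
    (fun _ _ h => h) (fun _ _ => Iff.rfl) i
  have e2 := tr ↥(Subtype.val ⁻¹' X : Set ↥A) V ℝ ℝ G
    ((G.induce A).induce (Subtype.val ⁻¹' X : Set ↥A)) (fun _ => - LinearMap.id)
    (fun x => x.1.1) (fun _ _ h => h) (fun _ _ => Iff.rfl) i
  rw [Subtype.range_coe] at e1
  have hr : Set.range (fun x : ↥(Subtype.val ⁻¹' X : Set ↥A) => (x.1.1 : V)) = X := by
    ext v
    constructor
    · rintro ⟨x, rfl⟩
      exact x.2
    · intro hv
      exact ⟨⟨⟨v, hX hv⟩, hv⟩, rfl⟩
  rw [hr] at e2
  exact e2.trans e1.symm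

theorem sph_of_sphA {m : ℕ} {G : SimpleGraph V} {A : Set V} (h : SphA m G A) [Fintype ↥A] :
    Sph m (G.induce A) := by
  classical
  intro S' hS' i
  have hcl : G.IsClique ((S'.map (Function.Embedding.subtype _) : Finset V) : Set V) := by
    intro a ha b hb hab
    rw [Finset.mem_coe, Finset.mem_map] at ha hb
    obtain ⟨a', ha', rfl⟩ := ha
    obtain ⟨b', hb', rfl⟩ := hb
    exact hS' ha' hb' fun h => hab (congrArg Subtype.val h)
  have hsub : ((S'.map (Function.Embedding.subtype _) : Finset V) : Set V) ⊆ A := by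
    intro a ha
    rw [Finset.mem_coe, Finset.mem_map] at ha
    obtain ⟨a', ha', rfl⟩ := ha
    exact a'.2
  have h1 := h _ hcl hsub i
  rw [beta_induce G A _ Set.inter_subset_left, Finset.card_map] at h1
  rw [← h1]
  congr 1
  ext x
  constructor
  · intro hx
    refine ⟨x.2, fun u hu => ?_⟩
    obtain ⟨u', hu', rfl⟩ := Finset.mem_map.1 hu
    exact hx u' hu'
  · rintro ⟨-, hx⟩ u hu
    exact hx u.1 (Finset.mem_map.2 ⟨u, hu, rfl⟩)

theorem t_PUNCT : S_PUNCT := by
  intro V _ _ G A m hA v hv i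
  classical
  have hfin : Fintype ↥A := Fintype.ofFinite _
  have hS := sph_of_sphA hA
  rw [beta_induce G A _ Set.sdiff_subset]
  have e : (Subtype.val ⁻¹' (A \ {v}) : Set ↥A) = {(⟨v, hv⟩ : ↥A)}ᶜ := by
    ext x
    simp only [Set.mem_preimage, Set.mem_sdiff, Set.mem_singleton_iff, Set.mem_compl_iff,
      Subtype.coe_prop, true_and]
    exact not_congr ⟨fun h => Subtype.ext h, fun h => congrArg Subtype.val h⟩
  rw [e]
  exact punct hS ⟨v, hv⟩ i

end Transfer

end Pool.Agent.E8helper67.CM
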